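import Pool.Agent.H391.KR.JZ

/-!
# Kirillov-Reshetikhin modules in the Verlinde ring, all types (MP_4354a3_al, Q1)

Weights are written in the fundamental weights (`Fin n → ℤ`); `dot a mu` is the pairing, `om i` the `i`-th
fundamental weight, `GR (Fin n)` the group ring `ℤ[P]` with exponentials `ex mu`, `S.RepR` its subring of Weyl
group invariants, i.e. `K_0(Rep g_0)` embedded by characters (`chr`).  By Weyl's character formula the
multiplicity of `L(mu)` in the class `f` is the coefficient of `mu` (dominant) in `f * S.Delta`,
`S.Delta = ∏_{α > 0} (1 - e^{-α})`.  `S.alc k = P_+^k`; `S.Lk k e mu nu`: `mu = w ∘ nu` with `w` a product of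
simple affine reflections (shifted action at level `k`) with sign `e`; so
`π_k([L(mu)]) = ∑_{la} (sign or 0) [L(la)]`, and `S.piK k f la` is the coefficient of `[L(la)]` in `π_k(f)`.
`S.VRing k V`: `V` is the Verlinde ring: a commutative ring with an additive isomorphism `co` to the free
abelian group `ℤ^(P_+^k)` and a ring homomorphism `pi` from the representation ring, given by `S.piK` in
these coordinates.

**Simply laced types** (`SLC`, files `PC`, `PF`, `PG`): `S : SLC n` is the Cartan matrix `S.C` of a simple simply
laced Lie algebra with the coefficients `S.th` of its highest root.  `S.KRFam Q`: `Q i m` is the class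
of `W^{(i)}_m`, expressed by `Q i 0 = 1`, the Q-system, highest weight `m ω_i` with multiplicity one and
convergence of the normalised characters (theorems of Nakajima and Hernandez); exactly one family has
these properties.  `S.Q1 R Q i`: (a), (b), (c) for the node `i`.

**Types B_n, C_n, F_4, G_2** (`GD`, files `GC`, `GV`, `GT`, `JC`, `JV`, `JZ`): `Bt n`, `Ct n`, `F4`, `G2` are the
Cartan data: `C i j` is the value of the `i`-th simple coroot at the `j`-th simple root,
`t i = 2 / (α_i | α_i)`, `th` the coroot of the highest root.  `GD.Cor`: the coroots, `GD.pos`: the positive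
ones, `GD.tt a = 2 / (α | α)` and `GD.rt a` = weight coordinates of the root `α` of the coroot `a`.
`GD.KRMod Q`: `Q i m` is the class of `W^{(i)}_m`, expressed by known properties of these modules: `zero`,
`qsys` the Q-system (Nakajima, Hernandez; `qnb`: product over the neighbours), `pos`, `top`, `low`: it is the
class of a module of highest weight `m ω_i` with multiplicity one, `dem`: `W^{(i)}_{t_i m}`, restricted to the Lie
algebra, is the Demazure module of level `m` for the translation by `- ω_i^∨` (Chari-Moura,
Fourier-Littelmann; for all types with Ardonne-Kedem and Di Francesco-Kedem), and `fund`: `W^{(i)}_1 = V(ω_i)`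
if `α_i` is short and the coefficient `th i` of its coroot in the coroot of the highest root is one
(Drinfeld, Chari-Pressley).  Here `GD.dm j` is the Demazure operator of the affine Weyl group, `xi i` the weight
`Λ_0` translated (level one, finite part `- t_i ω_i`) and `Redd w (xi i) y` says that `w` is a reduced word
leading from it to `y`, here the dominant weight in its orbit.

`GD.Main S`: for every `k ≥ 1` the Verlinde ring exists, and for every node `i` (`GD.Q1`): (a) the image of
`[W^{(i)}_m]` is a nonzero nonnegative combination of basis elements for `0 ≤ m ≤ t_i k`, (b) it is a unit for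
`m = 0` and `m = t_i k`, (c) it is zero for `m = t_i k + 1`.
-/

namespace Pool.Agent.Results.MP_4354a3_al.VerlindeKRAll

open H391.KR

theorem result :
    (∀ (n : ℕ) (S : SLC n), (∃! Q : Fin n → ℕ → S.RepR, S.KRFam Q) ∧
      ∀ k : ℕ, 1 ≤ k → (∃ (V : Type) (_ : CommRing V), Nonempty (S.VRing k V)) ∧
        ∀ Q : Fin n → ℕ → S.RepR, S.KRFam Q → ∀ (V : Type) [CommRing V] (R : S.VRing k V) i,
          S.Q1 R Q i) ∧
    (∀ n : ℕ, 3 ≤ n → (Bt n).Main) ∧ (∀ n : ℕ, 2 ≤ n → (Ct n).Main) ∧ F4.Main ∧ G2.Main :=
  ⟨fun _ S => ⟨S.main_uniq, fun k hk => S.main_ver k hk⟩, GD.main_B, GD.main_C, GD.main_F4,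
    GD.main_G2⟩

end Pool.Agent.Results.MP_4354a3_al.VerlindeKRAll
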